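import Pool.Agent.Lib.P43c499.Hyper

set_option autoImplicit false

namespace Pool.Agent.Results.MP_43c499_lc.HyperfiniteExample

/-- A Borel graph: the adjacency relation is a Borel subset of `X × X`. -/
def IsBorelGraph {X : Type} [MeasurableSpace X] (G : SimpleGraph X) : Prop :=
  MeasurableSet {p : X × X | G.Adj p.1 p.2}

/-- Every vertex has exactly `Δ` neighbours. -/
def IsRegular {X : Type} (G : SimpleGraph X) (Δ : ℕ) : Prop :=
  ∀ x, (G.neighborSet x).encard = (Δ : ℕ∞)

/-- A smooth Borel equivalence relation. -/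
def IsSmooth {X : Type} [MeasurableSpace X] (E : X → X → Prop) : Prop :=
  Equivalence E ∧ ∃ f : X → ℝ, Measurable f ∧ ∀ x y, E x y ↔ f x = f y

/-- The restriction of `G` to the set `A` has a Borel `Δ`-colouring. -/
def HasBorelColoringOn {X : Type} [MeasurableSpace X] (G : SimpleGraph X) (Δ : ℕ) (A : Set X) :
    Prop :=
  ∃ c : A → Fin Δ, Measurable c ∧ ∀ x y : A, G.Adj x y → c x ≠ c y

/-- The connectedness relation of `G` is hyperfinite: the union of an increasing sequence of
Borel equivalence relations with finite classes. -/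
def IsHyperfinite {X : Type} [MeasurableSpace X] (G : SimpleGraph X) : Prop :=
  ∃ F : ℕ → X → X → Prop, (∀ n, Equivalence (F n)) ∧
    (∀ n, MeasurableSet {p : X × X | F n p.1 p.2}) ∧ (∀ n x, {y | F n x y}.Finite) ∧
    (∀ n x y, F n x y → F (n + 1) x y) ∧ ∀ x y, G.Reachable x y ↔ ∃ n, F n x y

/-- The free product of `Δ` groups of order two. -/
abbrev Gamma (Δ : ℕ) : Type := Monoid.CoprodI (fun _ : Fin Δ => Multiplicative (ZMod 2))

/-- The standard generators. -/
def generator {Δ : ℕ} (i : Fin Δ) : Gamma Δ :=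
  Monoid.CoprodI.of (i := i) (Multiplicative.ofAdd (1 : ZMod 2))

/-- The left shift action of the group on the space of its subsets. -/
def leftShift {Δ : ℕ} (γ : Gamma Δ) (x : Gamma Δ → Bool) : Gamma Δ → Bool :=
  fun δ => x (γ⁻¹ * δ)

/-- The free part of the left shift. -/
def freePart (Δ : ℕ) : Set (Gamma Δ → Bool) := {x | ∀ γ, leftShift γ x = x → γ = 1}

/-- Marks' graph: two points of the free part are adjacent if a generator takes one to the
other. -/
def marksGraph (Δ : ℕ) : SimpleGraph (freePart Δ) :=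
  SimpleGraph.fromRel fun x y => ∃ i, y.1 = leftShift (generator i) x.1

/-- There is a Borel homomorphism from `H` to `G`. -/
def BorelHom {Y X : Type} [MeasurableSpace Y] [MeasurableSpace X] (H : SimpleGraph Y)
    (G : SimpleGraph X) : Prop :=
  ∃ h : Y → X, Measurable h ∧ ∀ y y', H.Adj y y' → G.Adj (h y) (h y')

theorem freePart_meas : MeasurableSet (freePart 3) := by
  have h1 : freePart 3 = ⋂ γ : Gamma 3, {x | leftShift γ x = x → γ = 1} := by
    ext x
    simp only [freePart, Set.mem_ofPred_eq, Set.mem_iInter]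
  rw [h1]
  refine MeasurableSet.iInter fun γ => ?_
  by_cases hγ : γ = 1
  · simp [hγ]
  · have h2 : {x : Gamma 3 → Bool | leftShift γ x = x → γ = 1} =
        {x : Gamma 3 → Bool | leftShift γ x = x}ᶜ := by
      ext x
      simp [hγ]
    rw [h2]
    have h3 : {x : Gamma 3 → Bool | leftShift γ x = x} =
        ⋂ δ : Gamma 3, {x : Gamma 3 → Bool | x (γ⁻¹ * δ) = x δ} := by
      ext x
      simp only [leftShift, Set.mem_ofPred_eq, Set.mem_iInter, funext_iff]
    rw [h3]
    have h4 : ∀ δ : Gamma 3, Measurable fun x : Gamma 3 → Bool => x δ := fun δ =>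
      measurable_pi_apply δ
    exact (MeasurableSet.iInter fun δ => measurableSet_eq_fun (h4 _) (h4 _)).compl

/-- There is a hyperfinite `3`-regular acyclic Borel graph `G` such that no smooth Borel
superequivalence relation of its connectedness relation has classes on which `G` has Borel
`3`-colourings, and there is no Borel homomorphism from Marks' graph to `G`. -/
theorem result : ∃ (X : Type) (_ : MeasurableSpace X) (_ : StandardBorelSpace X)
    (G : SimpleGraph X), IsBorelGraph G ∧ IsRegular G 3 ∧ G.IsAcyclic ∧ IsHyperfinite G ∧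
      (¬ ∃ E : X → X → Prop, IsSmooth E ∧ (∀ x y, G.Reachable x y → E x y) ∧
        ∀ x₀ : X, HasBorelColoringOn G 3 {x | E x₀ x}) ∧
      ¬ BorelHom (marksGraph 3) G := by
  have hEZ := Pool.Agent.Lib.P43c499.EZ_meas
  refine ⟨Pool.Agent.Lib.P43c499.XX, inferInstance, hEZ.standardBorel,
    Pool.Agent.Lib.P43c499.GG, Pool.Agent.Lib.P43c499.GG_meas, Pool.Agent.Lib.P43c499.GG_deg,
    Pool.Agent.Lib.P43c499.GG_acyclic, ⟨Pool.Agent.Lib.P43c499.FF,
      Pool.Agent.Lib.P43c499.FF_equiv, Pool.Agent.Lib.P43c499.FF_meas,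
      Pool.Agent.Lib.P43c499.FF_finite, Pool.Agent.Lib.P43c499.FF_mono,
      Pool.Agent.Lib.P43c499.FF_union⟩, ?_, ?_⟩
  · rintro ⟨E, ⟨-, f, hf, hEf⟩, hE2, hcol⟩
    apply Pool.Agent.Lib.P43c499.red hf
    · intro u v huv
      rw [← hEf]
      exact hE2 u v (SimpleGraph.Adj.reachable huv)
    · intro x0
      obtain ⟨c, hc1, hc2⟩ := hcol x0
      have hA : MeasurableSet {x | E x0 x} := by
        have h1 : {x | E x0 x} = f ⁻¹' {f x0} := by
          ext x
          rw [Set.mem_ofPred_eq, hEf, Set.mem_preimage, Set.mem_singleton_iff, eq_comm]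
        rw [h1]
        exact hf (measurableSet_singleton _)
      have hemb := MeasurableEmbedding.subtype_coe hA
      refine ⟨Function.extend Subtype.val c (fun _ => 0),
        hemb.measurable_extend hc1 measurable_const, fun x y hx hy hxy => ?_⟩
      have hx' : x ∈ {x | E x0 x} := (hEf _ _).mpr hx
      have hy' : y ∈ {x | E x0 x} := (hEf _ _).mpr hy
      have e1 : Function.extend Subtype.val c (fun _ => 0) x = c ⟨x, hx'⟩ :=
        Subtype.val_injective.extend_apply c _ ⟨x, hx'⟩
      have e2 : Function.extend Subtype.val c (fun _ => 0) y = c ⟨y, hy'⟩ :=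
        Subtype.val_injective.extend_apply c _ ⟨y, hy'⟩
      rw [e1, e2]
      exact hc2 ⟨x, hx'⟩ ⟨y, hy'⟩ hxy
  · rintro ⟨h, hh, hadj⟩
    have hemb := MeasurableEmbedding.subtype_coe freePart_meas
    apply Pool.Agent.Lib.P43c499.NoHom.noHom
    refine ⟨Function.extend Subtype.val (fun x => (h x).1) (fun _ _ _ => 0),
      hemb.measurable_extend (measurable_subtype_coe.comp hh) measurable_const, fun x hx => ?_⟩
    have hx' : x ∈ freePart 3 := fun γ hγ => by
      by_contra h1
      exact hx γ h1 hγ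
    have e1 : ∀ y (hy : y ∈ freePart 3), Function.extend Subtype.val
        (fun x : freePart 3 => (h x).1) (fun _ _ _ => 0) y = (h ⟨y, hy⟩).1 :=
      fun y hy => Subtype.val_injective.extend_apply _ _ ⟨y, hy⟩
    have hsh : ∀ (γ : Gamma 3) (y : Gamma 3 → Bool), y ∈ freePart 3 →
        leftShift γ y ∈ freePart 3 := by
      intro γ y hy γ' h1
      have h2 : leftShift (γ⁻¹ * γ' * γ) y = y := by
        funext δ
        have h3 := congrFun h1 (γ * δ)
        simp only [leftShift, mul_inv_rev, inv_inv] at h3 ⊢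
        rw [← mul_assoc γ⁻¹ γ δ, inv_mul_cancel, one_mul] at h3
        rw [← h3]
        simp only [mul_assoc]
      have h4 := hy _ h2
      have h5 : γ' = γ * (γ⁻¹ * γ' * γ) * γ⁻¹ := by group
      rw [h5, h4, mul_one, mul_inv_cancel]
    refine ⟨by rw [e1 x hx']; exact (h _).2, fun i => ?_⟩
    have h1 : (marksGraph 3).Adj ⟨x, hx'⟩ ⟨leftShift (generator i) x, hsh _ _ hx'⟩ := by
      rw [marksGraph, SimpleGraph.fromRel_adj]
      refine ⟨fun h2 => ?_, Or.inl ⟨i, rfl⟩⟩
      have h3 : leftShift (generator i) x = x := (congrArg Subtype.val h2).symm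
      exact Pool.Agent.Lib.P43c499.gen_ne_one i (hx' _ h3)
    obtain ⟨j, hj⟩ := hadj _ _ h1
    refine ⟨j, ?_⟩
    rw [e1 x hx']
    exact (e1 _ (hsh _ _ hx')).trans hj

end Pool.Agent.Results.MP_43c499_lc.HyperfiniteExample
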